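import Pool.Agent.H66.IQ.TE
import Pool.Agent.H18.EI.LOA

/-! # PLO: the value of a protocol depends on finitely many strings -/

set_option autoImplicit false

namespace Pool.Agent.H97.IQ

open Finset Pool.Agent.H6.NB Pool.Agent.H70.OQ Pool.Agent.H70.EH Pool.Agent.H70.EI Pool.Agent.H78.XQ
open Pool.Agent.H66.IQ

private theorem plo_eval (O O' : List Bool → Bool) (m : ℕ)
    (h : ∀ w : List Bool, w.length ≤ m → O w = O' w) :
    ∀ t : DT, t.Short m → t.eval O = t.eval O'
  | .leaf b, _ => rfl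
  | .node w l r, ht => by
    have h1 := h w ht.1
    have h2 := plo_eval O O' m h l ht.2.1
    have h3 := plo_eval O O' m h r ht.2.2
    show (if O w then r.eval O else l.eval O) = if O' w then r.eval O' else l.eval O'
    rw [h1, h2, h3]

private theorem plo_lang {k : ℕ} (M : Machine k) (x : List Bool) (O O' : List Bool → Bool)
    (h : ∀ w : List Bool, w.length ≤ x.length ^ M.c + M.c → O w = O' w) :
    x ∈ M.lang O ↔ x ∈ M.lang O' := by
  have e3 : ∀ Q : List Bool → Bool, x ∈ M.lang Q ↔
      Alt (fun w => w.length ≤ x.length ^ M.c + M.c)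
        true k fun ws => (M.tree x ws).eval Q = true := fun Q => Iff.rfl
  rw [e3 O, e3 O']
  refine Pool.Agent.H18.EI.alt_congr _ _ _ _ _ fun ws hl hws => ?_
  have h1 := M.short x ws hl hws
  rw [plo_eval O O' _ h _ h1]

private theorem plo_exam {k : ℕ} (T : Exam k) : ∃ m : ℕ, ∀ O O' : List Bool → Bool,
    (∀ w, w.length ≤ m → O w = O' w) → T.eval O = T.eval O' := by
  induction T with
  | leaf b => exact ⟨0, fun _ _ _ => rfl⟩
  | node M x l r ihl ihr =>
    obtain ⟨m1, h1⟩ := ihl
    obtain ⟨m2, h2⟩ := ihr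
    refine ⟨max (x.length ^ M.c + M.c) (max m1 m2), fun O O' h => ?_⟩
    have hx := plo_lang M x O O' fun w hw => h w (hw.trans (le_max_left _ _))
    have e1 := h1 O O' fun v hv => h v (hv.trans ((le_max_left _ _).trans (le_max_right _ _)))
    have e2 := h2 O O' fun v hv => h v (hv.trans ((le_max_right _ _).trans (le_max_right _ _)))
    unfold Exam.eval
    by_cases hO : x ∈ M.lang O
    · rw [if_pos hO, if_pos (hx.1 hO), e2]
    · rw [if_neg hO, if_neg fun h' => hO (hx.2 h'), e1]

private theorem plo_mem {k : ℕ} (G : Prot k) (O : List Bool → Bool) :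
    0 ≤ G.val O ∧ G.val O ≤ 1 := by
  induction G with
  | test T =>
    unfold Prot.val
    split_ifs <;> norm_num
  | coin l r ihl ihr =>
    unfold Prot.val
    constructor <;> linarith [ihl.1, ihl.2, ihr.1, ihr.2]
  | say l r ihl ihr =>
    unfold Prot.val
    exact ⟨le_max_of_le_left ihl.1, max_le ihl.2 ihr.2⟩

private theorem plo_local {k : ℕ} (G : Prot k) : ∃ m : ℕ, ∀ O O' : List Bool → Bool,
    (∀ w, w.length ≤ m → O w = O' w) → G.val O = G.val O' := by
  induction G with
  | test T =>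
    obtain ⟨m, h⟩ := plo_exam T
    refine ⟨m, fun O O' hO => ?_⟩
    unfold Prot.val
    rw [h O O' hO]
  | coin l r ihl ihr =>
    obtain ⟨m1, h1⟩ := ihl
    obtain ⟨m2, h2⟩ := ihr
    refine ⟨max m1 m2, fun O O' h => ?_⟩
    unfold Prot.val
    rw [h1 O O' (fun v hv => h v (hv.trans (le_max_left _ _))),
      h2 O O' (fun v hv => h v (hv.trans (le_max_right _ _)))]
  | say l r ihl ihr =>
    obtain ⟨m1, h1⟩ := ihl
    obtain ⟨m2, h2⟩ := ihr
    refine ⟨max m1 m2, fun O O' h => ?_⟩
    unfold Prot.val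
    rw [h1 O O' (fun v hv => h v (hv.trans (le_max_left _ _))),
      h2 O O' (fun v hv => h v (hv.trans (le_max_right _ _)))]

theorem pf_PLO (_hEVC : Pool.Agent.H6.NB.T_EVC) : T_PLO :=
  fun _ G => ⟨fun O => plo_mem G O, plo_local G⟩

end Pool.Agent.H97.IQ
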