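import Pool.Agent.H66.IQ.TD

/-! # PTW: the pointwise inequality for games with general leaves -/

set_option autoImplicit false

namespace Pool.Agent.H97.IQ

open Finset Pool.Agent.H66.IQ
open Pool.Agent.H6.NB (bi)
open Pool.Agent.H66.IP (smx gw fp dd c4 tht)

section

variable {V : Type} [DecidableEq V]

private theorem ptw_ff (x : V) (y : V → Bool) : fp x (fp x y) = y := by
  funext v
  by_cases h : v = x
  · subst h
    simp [fp]
  · simp [fp, h]

private theorem ptw_comm (x z : V) (hxz : x ≠ z) (y : V → Bool) : fp x (fp z y) = fp z (fp x y) := by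
  funext v
  by_cases h : v = x
  · subst h
    simp [fp, hxz]
  · by_cases h' : v = z
    · subst h'
      simp [fp, h]
    · simp [fp, h, h']

private theorem ptw_dx (x z : V) (hxz : x ≠ z) (F : (V → Bool) → ℝ) (y : V → Bool) :
    |dd x z F (fp x y)| = |dd x z F y| := by
  unfold dd
  rw [← ptw_comm x z hxz y, ptw_ff, ptw_ff, ← abs_neg]
  congr 1
  ring

private theorem ptw_dz (x z : V) (F : (V → Bool) → ℝ) (y : V → Bool) :
    |dd x z F (fp z y)| = |dd x z F y| := by
  unfold dd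
  rw [ptw_ff, ← abs_neg]
  congr 1
  ring

private theorem ptw_cx (x z : V) (hxz : x ≠ z) (F : (V → Bool) → ℝ) (y : V → Bool) :
    c4 x z F (fp x y) = c4 x z F y := by
  unfold c4
  rw [← ptw_comm x z hxz y, ptw_ff, ptw_ff]
  ring

private theorem ptw_cz (x z : V) (F : (V → Bool) → ℝ) (y : V → Bool) :
    c4 x z F (fp z y) = c4 x z F y := by
  unfold c4
  rw [ptw_ff]
  ring

/-- The property holds at `y` if it holds at one of the four corners. -/
private theorem ptw_corner (x z : V) (hxz : x ≠ z) (F G : (V → Bool) → ℝ) (K : ℝ) (y y' : V → Bool)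
    (hy : y' = y ∨ y' = fp x y ∨ y' = fp z y ∨ y' = fp x (fp z y))
    (h : |dd x z F y'| ≤ K * c4 x z G y') : |dd x z F y| ≤ K * c4 x z G y := by
  rcases hy with rfl | rfl | rfl | rfl
  · exact h
  · rwa [ptw_dx x z hxz, ptw_cx x z hxz] at h
  · rwa [ptw_dz, ptw_cz] at h
  · rwa [ptw_dx x z hxz, ptw_cx x z hxz, ptw_dz, ptw_cz] at h

private theorem ptw_agree (Q : Finset V) (v : V) (y : V → Bool) (hv : v ∉ Q) :
    ∀ w ∈ Q, fp v y w = y w := by
  intro w hw
  have h : w ≠ v := fun h => hv (h ▸ hw)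
  simp [fp, h]

private theorem ptw_bi (b : Bool) : bi b = 0 ∨ bi b = 1 := by
  unfold bi
  cases b
  · left; rfl
  · right; rfl

private theorem ptw_case (a : Lf V) (x z : V) (hxz : x ≠ z) (b : V → Bool) (hz : z ∉ a.Q b)
    (hfx : a.f (fp x b) = true → z ∉ a.Q (fp x b))
    (hA : a.f (fp x (fp z b)) = true → x ∈ a.Q (fp x (fp z b)) → z ∉ a.Q (fp x (fp z b))) :
    a.f (fp x b) = a.f (fp x (fp z b)) := by
  have hpz := a.path b (fp z b) (ptw_agree (a.Q b) z b hz)
  have hez : fp z (fp x (fp z b)) = fp x b := by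
    rw [ptw_comm x z hxz, ptw_ff]
  have hex : fp x (fp x (fp z b)) = fp z b := ptw_ff x (fp z b)
  by_cases h1 : a.f (fp x b) = true
  · have h2 := a.path (fp x b) (fp z (fp x b)) (ptw_agree _ z _ (hfx h1))
    rw [ptw_comm x z hxz, h2.1]
  · by_contra hne
    have h3 : a.f (fp x (fp z b)) = true := by
      by_contra h4
      rw [Bool.not_eq_true] at h1 h4
      exact hne (h1.trans h4.symm)
    by_cases hze : z ∈ a.Q (fp x (fp z b))
    · have hxe : x ∉ a.Q (fp x (fp z b)) := fun h => hA h3 h hze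
      have h5 := a.path (fp x (fp z b)) (fp x (fp x (fp z b))) (ptw_agree _ x _ hxe)
      rw [hex] at h5
      rw [← h5.2, hpz.2] at hze
      exact hz hze
    · have h5 := a.path (fp x (fp z b)) (fp z (fp x (fp z b))) (ptw_agree _ z _ hze)
      rw [hez] at h5
      rw [h5.1] at h1
      exact h1 h3

private theorem ptw_zero (a : Lf V) (x z : V) (hxz : x ≠ z) (b : V → Bool) (hb : a.f b = true)
    (hA : ∀ c, (c = b ∨ c = fp x (fp z b)) → a.f c = true → x ∈ a.Q c → z ∉ a.Q c)
    (hB : x ∈ a.Q b → a.f (fp x b) = true → z ∉ a.Q (fp x b))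
    (hC : z ∈ a.Q b → a.f (fp z b) = true → x ∉ a.Q (fp z b)) :
    dd x z (fun y => bi (a.f y)) b = 0 := by
  unfold dd
  show bi (a.f (fp x (fp z b))) - bi (a.f (fp x b)) - bi (a.f (fp z b)) + bi (a.f b) = 0
  by_cases hx : x ∈ a.Q b
  · have hz : z ∉ a.Q b := hA b (Or.inl rfl) hb hx
    have h1 := ptw_case a x z hxz b hz (hB hx) (hA _ (Or.inr rfl))
    have h2 := a.path b (fp z b) (ptw_agree _ z b hz)
    rw [h1, h2.1]
    ring
  · by_cases hz : z ∈ a.Q b
    · have h1 := ptw_case a z x hxz.symm b hx (hC hz) (by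
        rw [← ptw_comm x z hxz]
        intro h3 h4 h5
        exact hA _ (Or.inr rfl) h3 h5 h4)
      rw [← ptw_comm x z hxz] at h1
      have h2 := a.path b (fp x b) (ptw_agree _ x b hx)
      rw [h1, h2.1]
      ring
    · have h1 := a.path b (fp x b) (ptw_agree _ x b hx)
      have h2 := a.path b (fp z b) (ptw_agree _ z b hz)
      have h3 := a.path (fp z b) (fp x (fp z b)) (ptw_agree _ x _ (by rw [h2.2]; exact hx))
      rw [h3.1, h1.1, h2.1]
      ring

end

/-- The constant after `h` choices. -/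
private noncomputable def KK (β : ℝ) (k h : ℕ) : ℝ :=
  Real.exp ((h : ℝ) / k) * (1 + h) * (280 * β * k)

private theorem KK_pos (β : ℝ) (k h : ℕ) (hβ : 1 ≤ β) : 0 ≤ KK β k h := by
  unfold KK
  have : 0 < β := by linarith
  positivity

private theorem KK_mono (β : ℝ) (k h h' : ℕ) (hβ : 1 ≤ β) (hh : h ≤ h') :
    KK β k h ≤ KK β k h' := by
  unfold KK
  have h0 : 0 < β := by linarith
  have h1 : (h : ℝ) ≤ h' := by exact_mod_cast hh
  have h2 : (h : ℝ) / k ≤ (h' : ℝ) / k := div_le_div_of_nonneg_right h1 (Nat.cast_nonneg _)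
  have h3 : Real.exp ((h : ℝ) / k) ≤ Real.exp ((h' : ℝ) / k) := Real.exp_le_exp.mpr h2
  refine mul_le_mul_of_nonneg_right ?_ (by positivity)
  exact mul_le_mul h3 (by linarith) (by positivity) (by positivity)

private theorem KK_one (β : ℝ) (k h : ℕ) (hβ : 1 ≤ β) : 280 * β * k ≤ KK β k h := by
  have h1 := KK_mono β k 0 h hβ (Nat.zero_le _)
  have h2 : KK β k 0 = 280 * β * k := by
    unfold KK
    simp
  linarith

private theorem KK_step (β : ℝ) (k h : ℕ) (hβ : 1 ≤ β) (hk : 1 ≤ k) :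
    Real.exp (1 / k) * KK β k h + 120 * β * k ≤ KK β k (h + 1) := by
  unfold KK
  have h0 : 0 < β := by linarith
  have hk0 : (0 : ℝ) < k := by exact_mod_cast hk
  have e1 : Real.exp (((h + 1 : ℕ) : ℝ) / k) = Real.exp (1 / k) * Real.exp ((h : ℝ) / k) := by
    rw [← Real.exp_add]
    congr 1
    push_cast
    ring
  have e2 : (1 : ℝ) ≤ Real.exp (1 / k) * Real.exp ((h : ℝ) / k) := by
    rw [← Real.exp_add]
    exact Real.one_le_exp (by positivity)
  rw [e1]
  push_cast
  have h3 : 0 ≤ β * k := by positivity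
  have h4 : β * k ≤ (Real.exp (1 / k) * Real.exp ((h : ℝ) / k)) * (β * k) := by
    nlinarith
  nlinarith

private theorem KK_top (β : ℝ) (k h : ℕ) (hβ : 1 ≤ β) (hk : 1 ≤ k) (hh : h ≤ k) :
    KK β k h ≤ 2000 * β * (k : ℝ) ^ 2 := by
  refine (KK_mono β k h k hβ hh).trans ?_
  unfold KK
  have h0 : 0 < β := by linarith
  have hk0 : (0 : ℝ) < k := by exact_mod_cast hk
  have hk1 : (1 : ℝ) ≤ k := by exact_mod_cast hk
  rw [div_self hk0.ne']
  have h1 : Real.exp 1 ≤ 3 := by
    have := Real.exp_one_lt_d9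
    linarith
  have h2 : Real.exp 1 ≤ 25 / 7 := by linarith
  have h3 : Real.exp 1 * (1 + (k : ℝ)) ≤ 25 / 7 * (2 * k) :=
    mul_le_mul h2 (by linarith) (by positivity) (by norm_num)
  have h4 : (0 : ℝ) ≤ 280 * β * k := by positivity
  calc Real.exp 1 * (1 + (k : ℝ)) * (280 * β * k) ≤ 25 / 7 * (2 * k) * (280 * β * k) :=
        mul_le_mul_of_nonneg_right h3 h4
    _ = 2000 * β * (k : ℝ) ^ 2 := by ring

private theorem ptw_claim (hRSM : T_RSM) (hHVY : T_HVY)
    (hLGT : T_LGT) (V : Type) [Fintype V] [DecidableEq V] (β : ℝ) (k : ℕ) (y : V → Bool) (x z : V)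
    (hβ : 1 ≤ β) (hk : 1 ≤ k) (hxz : x ≠ z) (t : Tr V) (ht : t.cc ≤ k) :
    |dd x z (t.sv β) y| ≤ KK β k t.cc * c4 x z (t.rr β x z) y := by
  have hβ0 : 0 < β := by linarith
  have rr0 : ∀ (s : Tr V) (y' : V → Bool), 0 ≤ s.rr β x z y' := fun s y' =>
    ((hRSM V β s y' hβ0).1 x z).1.trans ((hRSM V β s y' hβ0).1 x z).2
  have own0 : ∀ (s : Tr V) (y' : V → Bool), 0 ≤ s.own β x z y' := fun s y' =>
    ((hRSM V β s y' hβ0).1 x z).1
  have c0 : ∀ (s : Tr V), 0 ≤ c4 x z (s.rr β x z) y := fun s => by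
    unfold c4
    have := rr0 s y
    have := rr0 s (fp x y)
    have := rr0 s (fp z y)
    have := rr0 s (fp x (fp z y))
    linarith
  induction t with
  | lf a =>
    have hK := KK_one β k (Tr.lf a).cc hβ
    have hk1 : (1 : ℝ) ≤ k := by exact_mod_cast hk
    have hK2 : 2 ≤ KK β k (Tr.lf a).cc := by nlinarith
    have A0 : ∀ (v : V) (b : V → Bool), 0 ≤ (Tr.lf a).ms β v b := by
      intro v b
      unfold Tr.ms
      split_ifs
      · exact zero_le_one
      · exact le_rfl
    have A1 : ∀ (v : V) (b : V → Bool), a.f b = true → v ∈ a.Q b → (Tr.lf a).ms β v b = 1 := by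
      intro v b h1 h2
      unfold Tr.ms
      exact if_pos ⟨h1, h2⟩
    have hown : ∀ b, (Tr.lf a).own β x z b = (Tr.lf a).ms β x b * ((Tr.lf a).ms β z b +
        (Tr.lf a).ms β z (fp x b)) + (Tr.lf a).ms β z b * ((Tr.lf a).ms β x b +
        (Tr.lf a).ms β x (fp z b)) := fun b => rfl
    have oA : ∀ b, a.f b = true → x ∈ a.Q b → z ∈ a.Q b → 1 ≤ (Tr.lf a).own β x z b := by
      intro b h1 h2 h3
      rw [hown, A1 x b h1 h2, A1 z b h1 h3]
      have := A0 z (fp x b)
      have := A0 x (fp z b)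
      linarith
    have oB : ∀ b, a.f b = true → x ∈ a.Q b → a.f (fp x b) = true → z ∈ a.Q (fp x b) →
        1 ≤ (Tr.lf a).own β x z b := by
      intro b h1 h2 h3 h4
      rw [hown, A1 x b h1 h2, A1 z (fp x b) h3 h4]
      have h5 := A0 z b
      have h6 := A0 x (fp z b)
      nlinarith [mul_nonneg h5 h6]
    have oC : ∀ b, a.f b = true → z ∈ a.Q b → a.f (fp z b) = true → x ∈ a.Q (fp z b) →
        1 ≤ (Tr.lf a).own β x z b := by
      intro b h1 h2 h3 h4
      rw [hown, A1 z b h1 h2, A1 x (fp z b) h3 h4]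
      have h5 := A0 x b
      have h6 := A0 z (fp x b)
      nlinarith [mul_nonneg h5 h6]
    have hsv : (Tr.lf a).sv β = fun y => bi (a.f y) := rfl
    by_cases hbig : ∃ b, (b = y ∨ b = fp x y ∨ b = fp z y ∨ b = fp x (fp z y)) ∧
        1 ≤ (Tr.lf a).own β x z b
    · have hc1 : 1 ≤ c4 x z ((Tr.lf a).rr β x z) y := by
        show 1 ≤ (Tr.lf a).own β x z y + (Tr.lf a).own β x z (fp x y) +
          (Tr.lf a).own β x z (fp z y) + (Tr.lf a).own β x z (fp x (fp z y))
        have o1 := own0 (Tr.lf a) y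
        have o2 := own0 (Tr.lf a) (fp x y)
        have o3 := own0 (Tr.lf a) (fp z y)
        have o4 := own0 (Tr.lf a) (fp x (fp z y))
        obtain ⟨b, hb, hb1⟩ := hbig
        rcases hb with rfl | rfl | rfl | rfl <;> linarith
      have hd : |dd x z ((Tr.lf a).sv β) y| ≤ 2 := by
        rw [hsv]
        unfold dd
        show |bi (a.f (fp x (fp z y))) - bi (a.f (fp x y)) - bi (a.f (fp z y)) +
          bi (a.f y)| ≤ 2
        rw [abs_le]
        rcases ptw_bi (a.f (fp x (fp z y))) with h1 | h1 <;>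
          rcases ptw_bi (a.f (fp x y)) with h2 | h2 <;>
          rcases ptw_bi (a.f (fp z y)) with h3 | h3 <;>
          rcases ptw_bi (a.f y) with h4 | h4 <;> rw [h1, h2, h3, h4] <;> norm_num
      calc |dd x z ((Tr.lf a).sv β) y| ≤ 2 * 1 := by linarith
        _ ≤ KK β k (Tr.lf a).cc * c4 x z ((Tr.lf a).rr β x z) y :=
          mul_le_mul hK2 hc1 zero_le_one (by linarith)
    · have hno : ∀ b, (b = y ∨ b = fp x y ∨ b = fp z y ∨ b = fp x (fp z y)) →
          ¬ 1 ≤ (Tr.lf a).own β x z b := fun b hb h => hbig ⟨b, hb, h⟩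
      have hcx : ∀ b, (b = y ∨ b = fp x y ∨ b = fp z y ∨ b = fp x (fp z y)) →
          (fp x b = y ∨ fp x b = fp x y ∨ fp x b = fp z y ∨ fp x b = fp x (fp z y)) := by
        rintro b (rfl | rfl | rfl | rfl)
        · exact Or.inr (Or.inl rfl)
        · exact Or.inl (ptw_ff x y)
        · exact Or.inr (Or.inr (Or.inr rfl))
        · exact Or.inr (Or.inr (Or.inl (ptw_ff x (fp z y))))
      have hcz : ∀ b, (b = y ∨ b = fp x y ∨ b = fp z y ∨ b = fp x (fp z y)) →
          (fp z b = y ∨ fp z b = fp x y ∨ fp z b = fp z y ∨ fp z b = fp x (fp z y)) := by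
        rintro b (rfl | rfl | rfl | rfl)
        · exact Or.inr (Or.inr (Or.inl rfl))
        · exact Or.inr (Or.inr (Or.inr (ptw_comm x z hxz y).symm))
        · exact Or.inl (ptw_ff z y)
        · right; left
          rw [ptw_comm x z hxz, ptw_ff]
      have hz0 : ∀ b, (b = y ∨ b = fp x y ∨ b = fp z y ∨ b = fp x (fp z y)) → a.f b = true →
          dd x z (fun y => bi (a.f y)) b = 0 := by
        intro b hb hfb
        refine ptw_zero a x z hxz b hfb ?_ ?_ ?_
        · rintro c (rfl | rfl) h1 h2 h3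
          · exact hno _ hb (oA _ h1 h2 h3)
          · exact hno _ (hcx _ (hcz _ hb)) (oA _ h1 h2 h3)
        · exact fun h1 h2 h3 => hno _ hb (oB _ hfb h1 h2 h3)
        · exact fun h1 h2 h3 => hno _ hb (oC _ hfb h1 h2 h3)
      have hd : |dd x z (fun y => bi (a.f y)) y| = 0 := by
        by_cases h1 : a.f y = true
        · rw [hz0 y (Or.inl rfl) h1, abs_zero]
        by_cases h2 : a.f (fp x y) = true
        · rw [← ptw_dx x z hxz, hz0 _ (Or.inr (Or.inl rfl)) h2, abs_zero]
        by_cases h3 : a.f (fp z y) = true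
        · rw [← ptw_dz x z, hz0 _ (Or.inr (Or.inr (Or.inl rfl))) h3, abs_zero]
        by_cases h4 : a.f (fp x (fp z y)) = true
        · rw [← ptw_dz x z, ← ptw_dx x z hxz, hz0 _ (Or.inr (Or.inr (Or.inr rfl))) h4, abs_zero]
        rw [Bool.not_eq_true] at h1 h2 h3 h4
        unfold dd
        show |bi (a.f (fp x (fp z y))) - bi (a.f (fp x y)) - bi (a.f (fp z y)) +
          bi (a.f y)| = 0
        rw [h1, h2, h3, h4]
        norm_num
      rw [hsv, hd]
      exact mul_nonneg (by linarith) (c0 (Tr.lf a))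
  | av l r hl hr =>
    have e1 : (Tr.av l r).cc = max l.cc r.cc := rfl
    rw [e1] at ht
    have h1 := hl ((le_max_left _ _).trans ht)
    have h2 := hr ((le_max_right _ _).trans ht)
    have k1 := mul_le_mul_of_nonneg_right (KK_mono β k l.cc (max l.cc r.cc) hβ (le_max_left _ _))
      (c0 l)
    have k2 := mul_le_mul_of_nonneg_right (KK_mono β k r.cc (max l.cc r.cc) hβ (le_max_right _ _))
      (c0 r)
    have e2 : dd x z ((Tr.av l r).sv β) y = (dd x z (l.sv β) y + dd x z (r.sv β) y) / 2 := by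
      unfold dd
      simp only [Tr.sv]
      ring
    have e3 : (c4 x z (l.rr β x z) y + c4 x z (r.rr β x z) y) / 2 ≤
        c4 x z ((Tr.av l r).rr β x z) y := by
      have o1 := own0 (Tr.av l r) y
      have o2 := own0 (Tr.av l r) (fp x y)
      have o3 := own0 (Tr.av l r) (fp z y)
      have o4 := own0 (Tr.av l r) (fp x (fp z y))
      unfold c4
      simp only [Tr.rr]
      linarith
    have e4 : |dd x z (l.sv β) y + dd x z (r.sv β) y| ≤ |dd x z (l.sv β) y| + |dd x z (r.sv β) y| :=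
      abs_add_le _ _
    rw [e1, e2, abs_div, abs_two]
    have e5 := mul_le_mul_of_nonneg_left e3 (KK_pos β k (max l.cc r.cc) hβ)
    have e6 : KK β k (max l.cc r.cc) * ((c4 x z (l.rr β x z) y + c4 x z (r.rr β x z) y) / 2) =
      (KK β k (max l.cc r.cc) * c4 x z (l.rr β x z) y +
        KK β k (max l.cc r.cc) * c4 x z (r.rr β x z) y) / 2 := by ring
    linarith
  | ch l r hl hr =>
    have e1 : (Tr.ch l r).cc = max l.cc r.cc + 1 := rfl
    by_cases hbig : ∃ y', (y' = y ∨ y' = fp x y ∨ y' = fp z y ∨ y' = fp x (fp z y)) ∧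
        (tht β k ≤ (Tr.ch l r).ms β x y' ∨ tht β k ≤ (Tr.ch l r).ms β z y')
    · obtain ⟨y', hy', hm⟩ := hbig
      have h1 := hHVY V β k (Tr.ch l r) y' x z hβ hk ht hxz hm
      have h2 := ptw_corner x z hxz _ _ _ y y' hy' h1
      refine h2.trans (mul_le_mul_of_nonneg_right ?_ (c0 _))
      have h3 := KK_one β k (Tr.ch l r).cc hβ
      have h4 : 7 / tht β k = 280 * β * k := by
        unfold tht
        have hk0 : (0 : ℝ) < k := by exact_mod_cast hk
        field_simp
        norm_num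
      linarith
    · have hsm : ∀ y', y' = y ∨ y' = fp x y ∨ y' = fp z y ∨ y' = fp x (fp z y) →
          (Tr.ch l r).ms β x y' < tht β k ∧ (Tr.ch l r).ms β z y' < tht β k := by
        intro y' hy'
        by_contra hc
        apply hbig
        refine ⟨y', hy', ?_⟩
        by_contra hc'
        push Not at hc'
        exact hc ⟨hc'.1, hc'.2⟩
      have ht' : max l.cc r.cc ≤ k := by
        rw [e1] at ht
        omega
      have h1 := hl ((le_max_left _ _).trans ht')
      have h2 := hr ((le_max_right _ _).trans ht')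
      have k1 := mul_le_mul_of_nonneg_right (KK_mono β k l.cc (max l.cc r.cc) hβ (le_max_left _ _))
        (c0 l)
      have k2 := mul_le_mul_of_nonneg_right (KK_mono β k r.cc (max l.cc r.cc) hβ
        (le_max_right _ _)) (c0 r)
      have h3 := hLGT V β k l r (KK β k (max l.cc r.cc)) y x z hβ hk ht hxz (KK_pos _ _ _ hβ) hsm
        (h1.trans k1) (h2.trans k2)
      rw [e1]
      exact h3.trans (mul_le_mul_of_nonneg_right (KK_step β k (max l.cc r.cc) hβ hk) (c0 _))

theorem pf_PTW (hRSM : T_RSM) (hHVY : T_HVY) (hLGT : T_LGT) : T_PTW := by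
  intro V _ _ β k t y x z hβ hk ht hxz
  have h := ptw_claim hRSM hHVY hLGT V β k y x z hβ hk hxz t ht
  refine h.trans (mul_le_mul_of_nonneg_right (KK_top β k t.cc hβ hk ht) ?_)
  have hβ0 : 0 < β := by linarith
  have rr0 : ∀ (y' : V → Bool), 0 ≤ t.rr β x z y' := fun y' =>
    ((hRSM V β t y' hβ0).1 x z).1.trans ((hRSM V β t y' hβ0).1 x z).2
  unfold c4
  have := rr0 y
  have := rr0 (fp x y)
  have := rr0 (fp z y)
  have := rr0 (fp x (fp z y))
  linarith

end Pool.Agent.H97.IQ
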